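import Mathlib
import Pool.Agent.Results.MP_44bc16_an.NoNormalStructure

/-!
# Every reflexive space is complemented in one that cannot be renormed to have normal structure

Over the real and over the complex numbers: every reflexive Banach space `Y` is isometric to a
subspace, which is the range of a projection of norm one, of a reflexive Banach space `E` such that
no equivalent norm on `E` has normal structure. The complex spaces are obtained from the real space
`X` of the starting theorem as spaces of real-linear maps from the dual of `X` to `ℂ`.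
-/

set_option autoImplicit false

open Filter Topology

namespace Pool.Agent.Results.MP_44bc16_an.EveryReflexiveSpace

/-- A normed space is reflexive when the canonical embedding into its bidual is onto. -/
def IsReflexiveSpace (𝕜 E : Type) [RCLike 𝕜] [NormedAddCommGroup E] [NormedSpace 𝕜 E] : Prop :=
  Function.Surjective (NormedSpace.inclusionInDoubleDual 𝕜 E)

/-- `p` is an equivalent norm on the real normed space `E` (for a complex space this allows norms
which are homogeneous only for real scalars). -/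
def IsEquivalentNorm {E : Type} [NormedAddCommGroup E] [NormedSpace ℝ E] (p : Seminorm ℝ E) :
    Prop :=
  ∃ a b : ℝ, 0 < a ∧ ∀ x, a * ‖x‖ ≤ p x ∧ p x ≤ b * ‖x‖

/-- The Chebyshev radius of `C` with respect to `p`. -/
noncomputable def chebRadius {E : Type} [AddCommGroup E] (p : E → ℝ) (C : Set E) : ℝ :=
  ⨅ x : C, ⨆ y : C, p ((x : E) - y)

/-- The diameter of `C` with respect to `p`. -/
noncomputable def pDiam {E : Type} [AddCommGroup E] (p : E → ℝ) (C : Set E) : ℝ :=
  ⨆ x : C, ⨆ y : C, p ((x : E) - y)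

/-- Normal structure with respect to the norm `p`. -/
def HasNormalStructure {E : Type} [AddCommGroup E] [Module ℝ E] (p : E → ℝ) : Prop :=
  ∀ C : Set E, Convex ℝ C → (∃ B : ℝ, ∀ x ∈ C, p x ≤ B) → C.Nontrivial →
    chebRadius p C < pDiam p C

/-- `Y` is isometric to a subspace of `E` which is the range of a projection of norm at most
one. -/
def IsOneComplementedIn (𝕜 Y E : Type) [RCLike 𝕜] [NormedAddCommGroup Y] [NormedSpace 𝕜 Y]
    [NormedAddCommGroup E] [NormedSpace 𝕜 E] : Prop :=
  ∃ (ι : Y →L[𝕜] E) (π : E →L[𝕜] Y), Isometry ι ∧ (∀ y, π (ι y) = y) ∧ ‖π‖ ≤ 1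

/-! ### Normal structure passes to subspaces -/

theorem normal_sub {E X : Type} [AddCommGroup E] [Module ℝ E] [AddCommGroup X] [Module ℝ X]
    (ι : X →ₗ[ℝ] E) (hι : Function.Injective ι) {p : E → ℝ} (h : HasNormalStructure p) :
    HasNormalStructure (fun x => p (ι x)) := by
  intro C hC hB hn
  have hC' : Convex ℝ (ι '' C) := hC.linear_image ι
  have hB' : ∃ B : ℝ, ∀ x ∈ ι '' C, p x ≤ B := by
    obtain ⟨B, hB⟩ := hB
    refine ⟨B, ?_⟩
    rintro _ ⟨x, hx, rfl⟩
    exact hB x hx
  have hn' : (ι '' C).Nontrivial := hn.image hι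
  have key := h (ι '' C) hC' hB' hn'
  let e : C ≃ (ι '' C : Set E) := Equiv.Set.image ι C hι
  have he : ∀ x : C, (e x : E) = ι x := fun x => rfl
  have h1 : ∀ x : C, (⨆ y : (ι '' C : Set E), p ((e x : E) - y)) = ⨆ y : C, p (ι ((x : X) - y)) := by
    intro x
    refine (Equiv.iSup_congr e (fun y => ?_)).symm
    rw [he, he, map_sub]
  have h2 : chebRadius p (ι '' C) = chebRadius (fun x => p (ι x)) C := by
    unfold chebRadius
    refine (Equiv.iInf_congr e (fun x => ?_)).symm
    exact h1 x
  have h3 : pDiam p (ι '' C) = pDiam (fun x => p (ι x)) C := by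
    unfold pDiam
    refine (Equiv.iSup_congr e (fun x => ?_)).symm
    exact h1 x
  rw [h2, h3] at key
  exact key

/-! ### Products -/

section prod

variable {𝕜 Y Z : Type} [RCLike 𝕜] [NormedAddCommGroup Y] [NormedSpace 𝕜 Y]
  [NormedAddCommGroup Z] [NormedSpace 𝕜 Z]

theorem reflexive_prod (hY : IsReflexiveSpace 𝕜 Y) (hZ : IsReflexiveSpace 𝕜 Z) :
    IsReflexiveSpace 𝕜 (Y × Z) := by
  intro F
  let A : StrongDual 𝕜 Y →L[𝕜] StrongDual 𝕜 (Y × Z) :=
    (ContinuousLinearMap.compL 𝕜 (Y × Z) Y 𝕜).flip (ContinuousLinearMap.fst 𝕜 Y Z)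
  let B : StrongDual 𝕜 Z →L[𝕜] StrongDual 𝕜 (Y × Z) :=
    (ContinuousLinearMap.compL 𝕜 (Y × Z) Z 𝕜).flip (ContinuousLinearMap.snd 𝕜 Y Z)
  obtain ⟨y, hy⟩ := hY (F.comp A)
  obtain ⟨z, hz⟩ := hZ (F.comp B)
  refine ⟨(y, z), ?_⟩
  ext f
  have h1 : f = A (f.comp (ContinuousLinearMap.inl 𝕜 Y Z)) +
      B (f.comp (ContinuousLinearMap.inr 𝕜 Y Z)) := by
    ext x
    · show f (x, 0) = f (x, 0) + f (0, 0)
      rw [← map_add]
      simp
    · show f (0, x) = f (0, 0) + f (0, x)
      rw [← map_add]
      simp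
  have h2 : f (y, 0) = F (A (f.comp (ContinuousLinearMap.inl 𝕜 Y Z))) := by
    have := congrArg (fun G : StrongDual 𝕜 (StrongDual 𝕜 Y) =>
      G (f.comp (ContinuousLinearMap.inl 𝕜 Y Z))) hy
    exact this
  have h3 : f (0, z) = F (B (f.comp (ContinuousLinearMap.inr 𝕜 Y Z))) := by
    have := congrArg (fun G : StrongDual 𝕜 (StrongDual 𝕜 Z) =>
      G (f.comp (ContinuousLinearMap.inr 𝕜 Y Z))) hz
    exact this
  show f (y, z) = F f
  have h4 : f (y, z) = f (y, 0) + f (0, z) := by
    rw [← map_add]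
    simp
  rw [h4, h2, h3, ← map_add, ← h1]

theorem oneComplemented_prod : IsOneComplementedIn 𝕜 Y (Y × Z) := by
  refine ⟨ContinuousLinearMap.inl 𝕜 Y Z, ContinuousLinearMap.fst 𝕜 Y Z, ?_, fun y => rfl,
    ContinuousLinearMap.norm_fst_le 𝕜 Y Z⟩
  apply AddMonoidHomClass.isometry_of_norm
  intro y
  show ‖(y, (0:Z))‖ = ‖y‖
  rw [Prod.norm_mk, norm_zero]
  exact max_eq_left (norm_nonneg y)

end prod

/-! ### The complex space -/

section complexification

variable (X : Type) [NormedAddCommGroup X] [NormedSpace ℝ X]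

/-- The complex space of the real-linear maps from the dual of `X` to the complex numbers. -/
def CX : Type := StrongDual ℝ X →L[ℝ] ℂ

noncomputable instance : NormedAddCommGroup (CX X) :=
  inferInstanceAs (NormedAddCommGroup (StrongDual ℝ X →L[ℝ] ℂ))

noncomputable instance : NormedSpace ℂ (CX X) :=
  inferInstanceAs (NormedSpace ℂ (StrongDual ℝ X →L[ℝ] ℂ))

noncomputable instance : CompleteSpace (CX X) :=
  inferInstanceAs (CompleteSpace (StrongDual ℝ X →L[ℝ] ℂ))

variable {X}

/-- The underlying map. -/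
def CX.ap (z : CX X) : StrongDual ℝ X →L[ℝ] ℂ := z

@[ext] theorem CX.ext {z w : CX X} (h : ∀ φ, z.ap φ = w.ap φ) : z = w :=
  ContinuousLinearMap.ext h

theorem CX.ap_add (z w : CX X) (φ : StrongDual ℝ X) : (z + w).ap φ = z.ap φ + w.ap φ := rfl

theorem CX.ap_smul (c : ℂ) (z : CX X) (φ : StrongDual ℝ X) : (c • z).ap φ = c * z.ap φ := rfl

theorem CX.norm_ap (z : CX X) : ‖z.ap‖ = ‖z‖ := rfl

/-- The embedding of `X`, as a function. -/
noncomputable def emb₀ (x : X) : CX X :=
  (Complex.ofRealLI.toContinuousLinearMap.comp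
      (NormedSpace.inclusionInDoubleDual ℝ X x) : StrongDual ℝ X →L[ℝ] ℂ)

theorem emb₀_ap (x : X) (φ : StrongDual ℝ X) : (emb₀ x).ap φ = (φ x : ℂ) := rfl

theorem norm_emb₀ (x : X) : ‖emb₀ x‖ = ‖x‖ := by
  rw [← CX.norm_ap]
  show ‖(Complex.ofRealLI.toContinuousLinearMap.comp
      (NormedSpace.inclusionInDoubleDual ℝ X x) : StrongDual ℝ X →L[ℝ] ℂ)‖ = ‖x‖
  rw [LinearIsometry.norm_toContinuousLinearMap_comp]
  exact (NormedSpace.inclusionInDoubleDualLi ℝ (E := X)).norm_map x

/-- The embedding of `X`. -/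
noncomputable def emb : X →L[ℝ] CX X :=
  LinearMap.mkContinuous
    ({ toFun := emb₀
       map_add' := fun x y => by
        apply CX.ext
        intro φ
        rw [CX.ap_add, emb₀_ap, emb₀_ap, emb₀_ap, map_add, Complex.ofReal_add]
       map_smul' := fun c x => by
        apply CX.ext
        intro φ
        show (emb₀ (c • x)).ap φ = (((c : ℂ) • emb₀ x).ap φ)
        rw [CX.ap_smul, emb₀_ap, emb₀_ap, map_smul, smul_eq_mul, Complex.ofReal_mul] } :
      X →ₗ[ℝ] CX X) 1 (fun x => by
        rw [one_mul]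
        exact (norm_emb₀ x).le)

theorem emb_ap (x : X) (φ : StrongDual ℝ X) : (emb x).ap φ = (φ x : ℂ) := rfl

theorem norm_emb (x : X) : ‖emb x‖ = ‖x‖ := norm_emb₀ x

/-- Evaluation at `φ`. -/
noncomputable def evAt (φ : StrongDual ℝ X) : StrongDual ℂ (CX X) :=
  LinearMap.mkContinuous
    ({ toFun := fun z : CX X => z.ap φ
       map_add' := fun _ _ => rfl
       map_smul' := fun _ _ => rfl } : CX X →ₗ[ℂ] ℂ) ‖φ‖ (fun z => by
        rw [mul_comm]
        exact z.ap.le_opNorm φ)

theorem evAt_apply (φ : StrongDual ℝ X) (z : CX X) : evAt φ z = z.ap φ := rfl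

/-- Evaluation, as a real-linear map. -/
noncomputable def evL : StrongDual ℝ X →L[ℝ] StrongDual ℂ (CX X) :=
  LinearMap.mkContinuous
    ({ toFun := fun φ => evAt φ
       map_add' := fun φ ψ => by
        apply ContinuousLinearMap.ext
        intro z
        exact map_add z.ap φ ψ
       map_smul' := fun c φ => by
        apply ContinuousLinearMap.ext
        intro z
        exact map_smul z.ap c φ } : StrongDual ℝ X →ₗ[ℝ] StrongDual ℂ (CX X)) 1 (fun φ => by
        rw [one_mul]
        refine ContinuousLinearMap.opNorm_le_bound _ (norm_nonneg φ) (fun z => ?_)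
        rw [mul_comm]
        exact z.ap.le_opNorm φ)

theorem evL_apply (φ : StrongDual ℝ X) : evL φ = evAt φ := rfl

theorem complex_reflexive (hX : Function.Surjective (NormedSpace.inclusionInDoubleDual ℝ X)) :
    IsReflexiveSpace ℂ (CX X) := by
  intro F
  let z₀ : CX X := ((F.restrictScalars ℝ).comp evL : StrongDual ℝ X →L[ℝ] ℂ)
  have hz₀ : ∀ φ, z₀.ap φ = F (evAt φ) := fun φ => rfl
  refine ⟨z₀, ?_⟩
  apply ContinuousLinearMap.ext
  intro f
  show f z₀ = F f
  let g : X →L[ℝ] ℂ := (f.restrictScalars ℝ).comp emb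
  let α : StrongDual ℝ X := Complex.reCLM.comp g
  let β : StrongDual ℝ X := Complex.imCLM.comp g
  have hα : ∀ x, α x = (f (emb x)).re := fun x => rfl
  have hβ : ∀ x, β x = (f (emb x)).im := fun x => rfl
  have hf : f = evAt α + Complex.I • evAt β := by
    apply ContinuousLinearMap.ext
    intro z
    obtain ⟨x₁, h1⟩ := hX (Complex.reCLM.comp z.ap)
    obtain ⟨x₂, h2⟩ := hX (Complex.imCLM.comp z.ap)
    have h1' : ∀ φ : StrongDual ℝ X, φ x₁ = (z.ap φ).re := fun φ =>
      congrArg (fun G : StrongDual ℝ (StrongDual ℝ X) => G φ) h1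
    have h2' : ∀ φ : StrongDual ℝ X, φ x₂ = (z.ap φ).im := fun φ =>
      congrArg (fun G : StrongDual ℝ (StrongDual ℝ X) => G φ) h2
    have hz : z = emb x₁ + Complex.I • emb x₂ := by
      apply CX.ext
      intro φ
      rw [CX.ap_add, CX.ap_smul, emb_ap, emb_ap, h1', h2', mul_comm]
      exact (Complex.re_add_im (z.ap φ)).symm
    show f z = z.ap α + Complex.I * z.ap β
    have e1 : f z = f (emb x₁) + Complex.I * f (emb x₂) := by
      conv_lhs => rw [hz]
      rw [map_add, map_smul]
      rfl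
    have e2 : z.ap α = (α x₁ : ℂ) + Complex.I * (α x₂ : ℂ) := by
      rw [h1', h2', mul_comm]
      exact (Complex.re_add_im (z.ap α)).symm
    have e3 : z.ap β = (β x₁ : ℂ) + Complex.I * (β x₂ : ℂ) := by
      rw [h1', h2', mul_comm]
      exact (Complex.re_add_im (z.ap β)).symm
    have e4 : ∀ x, f (emb x) = (α x : ℂ) + (β x : ℂ) * Complex.I := by
      intro x
      rw [hα, hβ]
      exact (Complex.re_add_im _).symm
    rw [e1, e2, e3, e4, e4]
    ring
  have e1 : f z₀ = z₀.ap α + Complex.I * z₀.ap β := by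
    conv_lhs => rw [hf]
    rfl
  have e2 : F f = F (evAt α) + Complex.I * F (evAt β) := by
    conv_lhs => rw [hf]
    rw [map_add, map_smul]
    rfl
  rw [e1, e2, hz₀, hz₀]

end complexification

/-- **Main theorem.** Every reflexive real Banach space, and every reflexive complex Banach space,
is isometric to the range of a projection of norm at most one in a reflexive Banach space (over the
same scalars) no equivalent norm of which, not even one homogeneous only for real scalars, has
normal structure. -/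
theorem result :
    (∀ (Y : Type) [NormedAddCommGroup Y] [NormedSpace ℝ Y] [CompleteSpace Y],
      IsReflexiveSpace ℝ Y → ∃ (E : Type) (_ : NormedAddCommGroup E) (_ : NormedSpace ℝ E),
        CompleteSpace E ∧ IsReflexiveSpace ℝ E ∧ IsOneComplementedIn ℝ Y E ∧
        ∀ p : Seminorm ℝ E, IsEquivalentNorm p → ¬ HasNormalStructure p) ∧
    (∀ (Y : Type) [NormedAddCommGroup Y] [NormedSpace ℂ Y] [CompleteSpace Y],
      IsReflexiveSpace ℂ Y → ∃ (E : Type) (_ : NormedAddCommGroup E) (_ : NormedSpace ℂ E),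
        CompleteSpace E ∧ IsReflexiveSpace ℂ E ∧ IsOneComplementedIn ℂ Y E ∧
        ∀ p : Seminorm ℝ E, IsEquivalentNorm p → ¬ HasNormalStructure p) := by
  obtain ⟨X, iX, jX, hc, hr, hX⟩ := NoNormalStructure.result
  constructor
  · intro Y _ _ _ hY
    refine ⟨Y × X, inferInstance, inferInstance, inferInstance, reflexive_prod hY hr,
      oneComplemented_prod, ?_⟩
    rintro p ⟨a, b, ha, hab⟩ hns
    let ι : X →ₗ[ℝ] Y × X := LinearMap.inr ℝ Y X
    have hn : ∀ x, ‖ι x‖ = ‖x‖ := by
      intro x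
      show ‖((0:Y), x)‖ = ‖x‖
      rw [Prod.norm_mk, norm_zero]
      exact max_eq_right (norm_nonneg x)
    refine hX (p.comp ι) ⟨a, b, ha, fun x => ?_⟩
      (normal_sub ι (LinearMap.inr_injective) hns)
    have := hab (ι x)
    rw [hn] at this
    exact this
  · intro Y _ _ _ hY
    refine ⟨Y × CX X, inferInstance, inferInstance, inferInstance,
      reflexive_prod hY (complex_reflexive hr), oneComplemented_prod, ?_⟩
    rintro p ⟨a, b, ha, hab⟩ hns
    let ι : X →ₗ[ℝ] Y × CX X := (LinearMap.inr ℝ Y (CX X)).comp (emb (X := X)).toLinearMap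
    have hn : ∀ x, ‖ι x‖ = ‖x‖ := by
      intro x
      show ‖((0:Y), emb x)‖ = ‖x‖
      rw [Prod.norm_mk, norm_zero, norm_emb]
      exact max_eq_right (norm_nonneg x)
    have hinj : Function.Injective ι := by
      rw [injective_iff_map_eq_zero]
      intro x hx
      rw [← norm_eq_zero, ← hn, hx, norm_zero]
    refine hX (p.comp ι) ⟨a, b, ha, fun x => ?_⟩ (normal_sub ι hinj hns)
    have := hab (ι x)
    rw [hn] at this
    exact this

end Pool.Agent.Results.MP_44bc16_an.EveryReflexiveSpace
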